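import Pool.Agent.Lib.MP_a78e1f_lc.U.Iface
import Pool.Agent.Lib.MP_e6fef2_lc.V.H21.Om1
import Pool.Agent.Lib.MP_e6fef2_lc.V.H7.EnumW
import Pool.Agent.Lib.MP_c5d73d_lc.F.H36.Reals

/-!
# VZ: the enumeration of `Z`
-/

set_option autoImplicit false

universe u

open scoped symmDiff

namespace Pool.Agent.Lib.MP_a78e1f_lc.H86

open Pool.Agent.Lib.MP_100a6c_lc
open Pool.Agent.Lib.MP_c5d73d_lc.F (pr isOm ZFC)
open Pool.Agent.Lib.MP_e6fef2_lc
open BName
open H36 (om nn)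

/-- VZ. -/
theorem vz : VzStatement.{u} := by
  intro B _ hC Γ w Z hw hZ
  have hO := Pool.Agent.Lib.MP_e6fef2_lc.H21.v_om1.{u} B hC
  have hE := Pool.Agent.Lib.MP_e6fef2_lc.H7.v_enum.{u}
  have hw' : Γ ≤ beq w (check om) := by
    rwa [Pool.Agent.Lib.MP_c5d73d_lc.F.H36.isOm_eq] at hw
  have hw'' : Γ ≤ beq (check om) w := by rwa [beq_symm]
  -- the second clause
  have h1 : Γ ≤ ⨅ x, (VB B).mem x Z ⇨ (VB B).sub x w := hZ.trans inf_le_left
  have h2 : Γ ≤ (VB B).mem (check (nn 0)) w ⊓ (VB B).sub (check (nn 0)) w ⊓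
      (⨅ x, (VB B).mem x Z ⇔ ((VB B).mem x Z ⊓ agb (VB B) (check (nn 0)) x (check (nn 0)))) ⇨
        isAl1 (VB B) w Z :=
    hZ.trans (inf_le_right.trans ((iInf_le _ (check (nn 0))).trans
      ((iInf_le _ (check (nn 0))).trans (iInf_le _ Z))))
  have hno : ∀ k : BName B, bmem k (check (nn 0)) = ⊥ := by
    intro k
    rw [H36.mem_check_nn]
    simp
  have h3 : Γ ≤ (VB B).mem (check (nn 0)) w := by
    refine (ext_VBmem_right (check (nn 0))).of_le hw'' ?_
    rw [VB_mem, mem_check_of_mem (H36.nn_mem_om 0)]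
    exact le_top
  have h4 : Γ ≤ (VB B).sub (check (nn 0)) w := by
    refine le_iInf fun z => ?_
    rw [le_himp_iff, VB_mem, hno, inf_bot_eq]
    exact bot_le
  have h5 : Γ ≤ ⨅ x, (VB B).mem x Z ⇔
      ((VB B).mem x Z ⊓ agb (VB B) (check (nn 0)) x (check (nn 0))) := by
    refine le_iInf fun x => ?_
    have : agb (VB B) (check (nn 0)) x (check (nn 0)) = ⊤ := by
      refine top_le_iff.1 (le_iInf fun k => ?_)
      rw [le_himp_iff, VB_mem, hno, inf_bot_eq]
      exact bot_le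
    rw [this, inf_top_eq, bihimp_self]
    exact le_top
  have h6 : Γ ≤ isAl1 (VB B) w Z :=
    (le_inf h2 (le_inf (le_inf h3 h4) h5)).trans himp_inf_le
  have h7 : Γ ≤ (VB B).leCard Z (check om1) ⊓ (VB B).leCard (check om1) Z := by
    refine (le_inf le_rfl h6).trans ?_
    rw [isAl1, inf_iSup_eq]
    refine iSup_le fun o => ?_
    have a1 : Γ ⊓ ((VB B).isSucc o w ⊓ (VB B).leCard Z o ⊓ (VB B).leCard o Z) ≤
        (VB B).isSucc o (check om) :=
      (ext_isSucc_right o).of_le (inf_le_left.trans hw')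
        (inf_le_right.trans (inf_le_left.trans inf_le_left))
    have a2 := a1.trans (hO.2.1 o)
    refine le_inf ?_ ?_
    · exact (ext_leCard_right Z).of_le a2 (inf_le_right.trans (inf_le_left.trans inf_le_right))
    · exact (ext_leCard_left Z).of_le a2 (inf_le_right.trans inf_le_right)
  have h8 : Γ ≤ ⨆ p, bmem p Z := by
    refine (h7.trans inf_le_right).trans (iSup_le fun f => inf_le_right.trans ?_)
    obtain ⟨ξ⟩ : Nonempty W.{u} := by
      obtain ⟨ξ, -⟩ := Pool.Agent.Lib.MP_e6fef2_lc.H21.exists_ow.{u} (a := 0) (by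
        rw [Pool.Agent.Lib.MP_e6fef2_lc.H21.o1]
        exact (Cardinal.ord_pos).2 (Cardinal.aleph_pos 1))
      exact ⟨ξ⟩
    refine (iInf_le _ (wn ξ)).trans ?_
    have : (VB B).mem (wn ξ) (check om1) = ⊤ := by
      rw [VB_mem, hO.2.2.1]
      exact top_le_iff.1 (le_iSup_of_le ξ (by rw [beq_refl]))
    rw [this, top_himp]
    exact iSup_mono fun b => inf_le_left
  obtain ⟨z, hz1, hz2⟩ := hE B Γ Z h8 (h7.trans inf_le_left)
  refine ⟨z, hz1, hz2, hw', fun x => ?_⟩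
  have b1 : Γ ⊓ bmem x Z ≤ (VB B).sub x w := iInf_himp_apply h1 x inf_le_left inf_le_right
  exact (ext_sub_right x).of_le (inf_le_left.trans hw') b1

end Pool.Agent.Lib.MP_a78e1f_lc.H86
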